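import Pool.Agent.TH521.AT.W

set_option autoImplicit false

open MeasureTheory ProbabilityTheory Set

namespace Pool.TH521.AT

open Pool.TH198.AT

/-- continuity of `(x,v) ↦ E f(x + √v y)` for bounded continuous `f` -/
theorem cont_E {f : ℝ → ℝ} {C : ℝ} (hf : Continuous f) (hC : ∀ x, |f x| ≤ C) :
    Continuous (fun p : ℝ × ℝ => E1 (fun y => f (p.1 + √p.2 * y))) := by
  unfold E1
  apply continuous_of_dominated (bound := fun _ => C)
  · intro p
    exact (hf.comp (by fun_prop)).aestronglyMeasurable
  · intro p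
    exact Filter.Eventually.of_forall fun y => by simpa using hC _
  · exact integrable_const C
  · refine Filter.Eventually.of_forall fun y => hf.comp ?_
    have : Continuous (fun p : ℝ × ℝ => √p.2) := Real.continuous_sqrt.comp continuous_snd
    exact continuous_fst.add (this.mul continuous_const)

theorem abs_E_le {f : ℝ → ℝ} {C : ℝ} (hC : ∀ x, |f x| ≤ C) : |E1 f| ≤ C := by
  unfold E1
  have := norm_integral_le_of_norm_le_const (μ := gaussianReal 0 1) (f := f) (C := C)
    (Filter.Eventually.of_forall fun x => by simpa using hC x)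
  simpa using this

/-- the outer expectation -/
noncomputable def U (f : ℝ → ℝ) (s h v : ℝ) : ℝ :=
  E1 (fun z => sech (h + √s * z) * E1 (fun y => f (h + √s * z + √v * y)))

theorem U_cont {f : ℝ → ℝ} {C : ℝ} (hf : Continuous f) (hC : ∀ x, |f x| ≤ C) (s h : ℝ) :
    Continuous (U f s h) := by
  have hE := cont_E hf hC
  have hs := sech_cont
  have hC0 : 0 ≤ C := (abs_nonneg _).trans (hC 0)
  unfold U
  rw [show (fun v => E1 (fun z => sech (h + √s * z) * E1 (fun y => f (h + √s * z + √v * y)))) =
    fun v => ∫ z, sech (h + √s * z) * E1 (fun y => f (h + √s * z + √v * y)) ∂(gaussianReal 0 1)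
    from rfl]
  have hcz : ∀ v : ℝ, Continuous fun z : ℝ => E1 (fun y => f (h + √s * z + √v * y)) := by
    intro v
    have hc : Continuous fun z : ℝ => ((h + √s * z, v) : ℝ × ℝ) := by fun_prop
    exact hE.comp hc
  have hcv : ∀ z : ℝ, Continuous fun v : ℝ => E1 (fun y => f (h + √s * z + √v * y)) := by
    intro z
    have hc : Continuous fun v : ℝ => ((h + √s * z, v) : ℝ × ℝ) := by fun_prop
    exact hE.comp hc
  apply continuous_of_dominated (bound := fun _ => C)
  · intro v
    have h1 : Continuous fun z : ℝ => sech (h + √s * z) := hs.comp (by fun_prop)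
    exact (h1.mul (hcz v)).aestronglyMeasurable
  · intro v
    refine Filter.Eventually.of_forall fun z => ?_
    rw [Real.norm_eq_abs, abs_mul, abs_of_pos (sech_pos _)]
    have h1 := sech_le_one (h + √s * z)
    have h2 := abs_E_le (f := fun y => f (h + √s * z + √v * y)) (C := C) (fun y => hC _)
    have h3 := sech_pos (h + √s * z)
    have h4 := abs_nonneg (E1 fun y => f (h + √s * z + √v * y))
    nlinarith
  · exact integrable_const C
  · refine Filter.Eventually.of_forall fun z => ?_
    exact continuous_const.mul (hcv z)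

theorem U_deriv (H : St_HEAT) {f f1 f2 : ℝ → ℝ} (h2 : C2b f f1 f2) {C : ℝ}
    (hC : ∀ x, |f x| ≤ C) (hC2 : ∀ x, |f2 x| ≤ C) (s h : ℝ) {v : ℝ} (hv : 0 < v) :
    HasDerivAt (U f s h) (U f2 s h v / 2) v := by
  obtain ⟨H1, H2⟩ := H f f1 f2 h2
  have hs := sech_cont
  have hf : Continuous f := continuous_iff_continuousAt.mpr fun x => (h2.1 x).continuousAt
  have hE := cont_E hf hC
  have hE2 := cont_E h2.2.2.1 hC2
  have hC0 : 0 ≤ C := (abs_nonneg _).trans (hC 0)
  have hsz : Continuous fun z : ℝ => sech (h + √s * z) := hs.comp (by fun_prop)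
  have hcz : ∀ v : ℝ, Continuous fun z : ℝ => E1 (fun y => f (h + √s * z + √v * y)) := by
    intro v
    have hc : Continuous fun z : ℝ => ((h + √s * z, v) : ℝ × ℝ) := by fun_prop
    exact hE.comp hc
  have hcz2 : ∀ v : ℝ, Continuous fun z : ℝ => E1 (fun y => f2 (h + √s * z + √v * y)) := by
    intro v
    have hc : Continuous fun z : ℝ => ((h + √s * z, v) : ℝ × ℝ) := by fun_prop
    exact hE2.comp hc
  have hb : ∀ (g : ℝ → ℝ), (∀ x, |g x| ≤ C) → ∀ v z : ℝ,
      |sech (h + √s * z) * E1 (fun y => g (h + √s * z + √v * y))| ≤ C := by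
    intro g hg v z
    rw [abs_mul, abs_of_pos (sech_pos _)]
    have h1 := sech_le_one (h + √s * z)
    have h2 := abs_E_le (f := fun y => g (h + √s * z + √v * y)) (C := C) (fun y => hg _)
    have h3 := sech_pos (h + √s * z)
    have h4 := abs_nonneg (E1 fun y => g (h + √s * z + √v * y))
    nlinarith
  have key := hasDerivAt_integral_of_dominated_loc_of_deriv_le (μ := gaussianReal 0 1)
    (F := fun v z => sech (h + √s * z) * E1 (fun y => f (h + √s * z + √v * y)))
    (F' := fun v z => sech (h + √s * z) * (E1 (fun y => f2 (h + √s * z + √v * y)) / 2))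
    (x₀ := v) (s := Ioi 0) (bound := fun _ => C) (Ioi_mem_nhds hv)
    (Filter.Eventually.of_forall fun w => (hsz.mul (hcz w)).aestronglyMeasurable)
    (Integrable.of_bound (hsz.mul (hcz v)).aestronglyMeasurable C
      (Filter.Eventually.of_forall fun z => by
        rw [Real.norm_eq_abs]
        exact hb f hC v z))
    ((hsz.mul ((hcz2 v).div_const 2)).aestronglyMeasurable)
    (Filter.Eventually.of_forall fun z => fun w _ => by
      rw [Real.norm_eq_abs, show sech (h + √s * z) * (E1 (fun y => f2 (h + √s * z + √w * y)) / 2)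
        = (sech (h + √s * z) * E1 (fun y => f2 (h + √s * z + √w * y))) / 2 by ring, abs_div,
        abs_two]
      have := hb f2 hC2 w z
      have h0 := abs_nonneg (sech (h + √s * z) * E1 (fun y => f2 (h + √s * z + √w * y)))
      linarith)
    (integrable_const C)
    (Filter.Eventually.of_forall fun z => fun w hw => by
      exact (H1 (h + √s * z) w hw).const_mul _)
  have key2 := key.2
  have e1 : U f2 s h v / 2 = ∫ z, sech (h + √s * z) *
      (E1 (fun y => f2 (h + √s * z + √v * y)) / 2) ∂(gaussianReal 0 1) := by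
    unfold U
    rw [show E1 (fun z => sech (h + √s * z) * E1 (fun y => f2 (h + √s * z + √v * y))) =
      ∫ z, sech (h + √s * z) * E1 (fun y => f2 (h + √s * z + √v * y)) ∂(gaussianReal 0 1)
      from rfl]
    rw [← integral_div]
    apply integral_congr_ae
    refine Filter.Eventually.of_forall fun z => ?_
    simp only
    ring
  rw [e1]
  exact key2

theorem hasDeriv_sech (x : ℝ) : HasDerivAt sech (-(sech x * Real.tanh x)) x := by
  have h1 := (Real.hasDerivAt_cosh x).inv (Real.cosh_pos x).ne'
  have e : -(sech x * Real.tanh x) = -Real.sinh x / Real.cosh x ^ 2 := by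
    rw [tanh_eq]
    unfold sech
    have := (Real.cosh_pos x).ne'
    field_simp
  rw [e]
  exact h1

theorem hasDeriv_tanh (x : ℝ) : HasDerivAt Real.tanh (sech x ^ 2) x := by
  have h1 : HasDerivAt (fun x => Real.sinh x / Real.cosh x)
      ((Real.cosh x * Real.cosh x - Real.sinh x * Real.sinh x) / Real.cosh x ^ 2) x :=
    (Real.hasDerivAt_sinh x).div (Real.hasDerivAt_cosh x) (Real.cosh_pos x).ne'
  have e0 : Real.tanh = fun x => Real.sinh x / Real.cosh x :=
    funext Real.tanh_eq_sinh_div_cosh
  rw [e0]
  have e : sech x ^ 2 =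
      (Real.cosh x * Real.cosh x - Real.sinh x * Real.sinh x) / Real.cosh x ^ 2 := by
    unfold sech
    have := (Real.cosh_pos x).ne'
    have h2 := Real.cosh_sq x
    field_simp
    nlinarith
  rw [e]
  exact h1

theorem tanh_sq (x : ℝ) : Real.tanh x ^ 2 = 1 - sech x ^ 2 := by
  rw [Real.tanh_eq_sinh_div_cosh]
  unfold sech
  have := (Real.cosh_pos x).ne'
  have h2 := Real.cosh_sq x
  field_simp
  linarith

theorem c2b_1 : C2b (fun x => sech x ^ 1) (fun x => -(sech x * Real.tanh x))
    (fun x => sech x - 2 * sech x ^ 3) := by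
  have hs := sech_cont
  have ht := tanh_cont
  refine ⟨fun x => ?_, fun x => ?_, by fun_prop, 2, fun x => ⟨?_, ?_⟩⟩
  · simpa using hasDeriv_sech x
  · have h1 := ((hasDeriv_sech x).mul (hasDeriv_tanh x)).neg
    refine h1.congr_deriv ?_
    have := tanh_sq x
    have e : -(-(sech x * Real.tanh x) * Real.tanh x + sech x * sech x ^ 2) =
      sech x * Real.tanh x ^ 2 - sech x ^ 3 := by ring
    rw [e, this]
    ring
  · rw [abs_neg, abs_mul, abs_of_pos (sech_pos x)]
    have h1 := sech_le_one x
    have h2 := abs_tanh_le x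
    have h3 := abs_nonneg (Real.tanh x)
    have h4 := sech_pos x
    nlinarith
  · have h1 := sech_le_one x
    have h4 := sech_pos x
    have h5 : sech x ^ 3 ≤ 1 := pow_le_one₀ h4.le h1
    have h6 : 0 < sech x ^ 3 := pow_pos h4 3
    rw [abs_le]
    constructor <;> linarith

theorem c2b_3 : C2b (fun x => sech x ^ 3) (fun x => -(3 * sech x ^ 3 * Real.tanh x))
    (fun x => 9 * sech x ^ 3 - 12 * sech x ^ 5) := by
  have hs := sech_cont
  have ht := tanh_cont
  refine ⟨fun x => ?_, fun x => ?_, by fun_prop, 12, fun x => ⟨?_, ?_⟩⟩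
  · have h1 := (hasDeriv_sech x).pow 3
    refine h1.congr_deriv ?_
    push_cast
    ring
  · have h0 : HasDerivAt (fun x => sech x ^ 3) (-(3 * sech x ^ 3 * Real.tanh x)) x := by
      have h1 := (hasDeriv_sech x).pow 3
      refine h1.congr_deriv ?_
      push_cast
      ring
    have h1 := ((h0.const_mul 3).mul (hasDeriv_tanh x)).neg
    refine h1.congr_deriv ?_
    have := tanh_sq x
    have e : -(3 * -(3 * sech x ^ 3 * Real.tanh x) * Real.tanh x + 3 * sech x ^ 3 * sech x ^ 2) =
      9 * sech x ^ 3 * Real.tanh x ^ 2 - 3 * sech x ^ 5 := by ring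
    rw [e, this]
    ring
  · rw [abs_neg, abs_mul, abs_of_nonneg (by have := sech_pos x; positivity)]
    have h1 : sech x ^ 3 ≤ 1 := pow_le_one₀ (sech_pos x).le (sech_le_one x)
    have h2 := abs_tanh_le x
    have h3 := abs_nonneg (Real.tanh x)
    have h4 := pow_pos (sech_pos x) 3
    nlinarith
  · have h1 := sech_le_one x
    have h4 := sech_pos x
    have h5 : sech x ^ 3 ≤ 1 := pow_le_one₀ h4.le h1
    have h6 : 0 < sech x ^ 3 := pow_pos h4 3
    have h7 : sech x ^ 5 ≤ 1 := pow_le_one₀ h4.le h1
    have h8 : 0 < sech x ^ 5 := pow_pos h4 5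
    rw [abs_le]
    constructor <;> linarith

theorem E1_int {f : ℝ → ℝ} {C : ℝ} (hf : Continuous f) (hC : ∀ x, |f x| ≤ C) (x v : ℝ) :
    Integrable (fun y => f (x + √v * y)) (gaussianReal 0 1) :=
  Integrable.of_bound ((hf.comp (by fun_prop)).aestronglyMeasurable) C
    (Filter.Eventually.of_forall fun z => by simpa using hC _)

/-- linearity of `U` -/
theorem U_lin {f g : ℝ → ℝ} {C D : ℝ} (hf : Continuous f) (hC : ∀ x, |f x| ≤ C)
    (hg : Continuous g) (hD : ∀ x, |g x| ≤ D) (a b s h v : ℝ) :
    U (fun x => a * f x + b * g x) s h v = a * U f s h v + b * U g s h v := by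
  have hs := sech_cont
  have hsz : Continuous fun z : ℝ => sech (h + √s * z) := hs.comp (by fun_prop)
  have hint : ∀ (f : ℝ → ℝ) (C : ℝ), Continuous f → (∀ x, |f x| ≤ C) →
      Integrable (fun z => sech (h + √s * z) * E1 (fun y => f (h + √s * z + √v * y)))
        (gaussianReal 0 1) := by
    intro f C hf hC
    have hE := cont_E hf hC
    have hcz : Continuous fun z : ℝ => E1 (fun y => f (h + √s * z + √v * y)) := by
      have hc : Continuous fun z : ℝ => ((h + √s * z, v) : ℝ × ℝ) := by fun_prop
      exact hE.comp hc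
    refine Integrable.of_bound ((hsz.mul hcz).aestronglyMeasurable) C
      (Filter.Eventually.of_forall fun z => ?_)
    rw [Real.norm_eq_abs, abs_mul, abs_of_pos (sech_pos _)]
    have h1 := sech_le_one (h + √s * z)
    have h2 := abs_E_le (f := fun y => f (h + √s * z + √v * y)) (C := C) (fun y => hC _)
    have h3 := sech_pos (h + √s * z)
    have h4 := abs_nonneg (E1 fun y => f (h + √s * z + √v * y))
    nlinarith
  unfold U
  have hi := hint f C hf hC
  have hj := hint g D hg hD
  have e : (fun z => sech (h + √s * z) *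
      E1 (fun y => a * f (h + √s * z + √v * y) + b * g (h + √s * z + √v * y))) =
      fun z => a * (sech (h + √s * z) * E1 (fun y => f (h + √s * z + √v * y))) +
        b * (sech (h + √s * z) * E1 (fun y => g (h + √s * z + √v * y))) := by
    funext z
    have e1 : E1 (fun y => a * f (h + √s * z + √v * y) + b * g (h + √s * z + √v * y)) =
        a * E1 (fun y => f (h + √s * z + √v * y)) + b * E1 (fun y => g (h + √s * z + √v * y)) := by
      unfold E1
      rw [integral_add ((E1_int hf hC _ _).const_mul a) ((E1_int hg hD _ _).const_mul b),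
        integral_const_mul, integral_const_mul]
    rw [e1]
    ring
  rw [e]
  unfold E1 at hi hj ⊢
  rw [integral_add (hi.const_mul a) (hj.const_mul b), integral_const_mul, integral_const_mul]

theorem V_eq (k : ℕ) (s h v : ℝ) :
    V k s h v = Real.exp (-v / 2) * U (fun x => sech x ^ k) s h v := rfl

theorem pow_bd (k : ℕ) (x : ℝ) : |sech x ^ k| ≤ 1 := by
  rw [abs_of_pos (pow_pos (sech_pos x) k)]
  exact pow_le_one₀ (sech_pos x).le (sech_le_one x)

theorem pow_cont (k : ℕ) : Continuous fun x => sech x ^ k := sech_cont.pow k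

theorem exp_deriv (v : ℝ) :
    HasDerivAt (fun v : ℝ => Real.exp (-v / 2)) (-(Real.exp (-v / 2) / 2)) v := by
  have h1 : HasDerivAt (fun v : ℝ => -v / 2) (-1 / 2) v := ((hasDerivAt_id v).neg).div_const 2
  refine h1.exp.congr_deriv ?_
  ring

theorem t_VD (H : St_HEAT) : St_VD := by
  intro s h hs
  refine ⟨fun v hv => ?_, fun v hv => ?_, ?_, ?_⟩
  · have h1 := U_deriv H c2b_1 (C := 2) (fun x => (pow_bd 1 x).trans (by norm_num)) (by
      intro x
      have h1 := sech_le_one x
      have h4 := sech_pos x
      have h5 : sech x ^ 3 ≤ 1 := pow_le_one₀ h4.le h1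
      have h6 : 0 < sech x ^ 3 := pow_pos h4 3
      rw [abs_le]
      constructor <;> linarith) s h hv
    have h2 := (exp_deriv v).mul h1
    have e : U (fun x => sech x - 2 * sech x ^ 3) s h v =
        U (fun x => sech x ^ 1) s h v - 2 * U (fun x => sech x ^ 3) s h v := by
      have := U_lin (pow_cont 1) (pow_bd 1) (pow_cont 3) (pow_bd 3) 1 (-2) s h v
      rw [show (fun x => sech x - 2 * sech x ^ 3) =
        fun x => 1 * sech x ^ 1 + (-2) * sech x ^ 3 by funext x; ring, this]
      ring
    refine h2.congr_deriv ?_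
    rw [e, V_eq]
    ring
  · have h1 := U_deriv H c2b_3 (C := 12) (fun x => (pow_bd 3 x).trans (by norm_num)) (by
      intro x
      have h1 := sech_le_one x
      have h4 := sech_pos x
      have h5 : sech x ^ 3 ≤ 1 := pow_le_one₀ h4.le h1
      have h6 : 0 < sech x ^ 3 := pow_pos h4 3
      have h7 : sech x ^ 5 ≤ 1 := pow_le_one₀ h4.le h1
      have h8 : 0 < sech x ^ 5 := pow_pos h4 5
      rw [abs_le]
      constructor <;> linarith) s h hv
    have h2 := (exp_deriv v).mul h1
    have e : U (fun x => 9 * sech x ^ 3 - 12 * sech x ^ 5) s h v =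
        9 * U (fun x => sech x ^ 3) s h v - 12 * U (fun x => sech x ^ 5) s h v := by
      have := U_lin (pow_cont 3) (pow_bd 3) (pow_cont 5) (pow_bd 5) 9 (-12) s h v
      rw [show (fun x => 9 * sech x ^ 3 - 12 * sech x ^ 5) =
        fun x => 9 * sech x ^ 3 + (-12) * sech x ^ 5 by funext x; ring, this]
      ring
    have e2 : E1 (fun z => sech (h + √s * z) * E1 (fun y => kk (h + √s * z + √v * y))) =
        6 * U (fun x => sech x ^ 5) s h v - 4 * U (fun x => sech x ^ 3) s h v := by
      have := U_lin (pow_cont 5) (pow_bd 5) (pow_cont 3) (pow_bd 3) 6 (-4) s h v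
      rw [show E1 (fun z => sech (h + √s * z) * E1 (fun y => kk (h + √s * z + √v * y))) =
        U (fun x => 6 * sech x ^ 5 + (-4) * sech x ^ 3) s h v by
          unfold U kk
          simp only [sub_eq_add_neg, neg_mul], this]
      ring
    refine h2.congr_deriv ?_
    rw [e, e2]
    ring
  · have h1 : Continuous (V 1 s h) := by
      have h2 := U_cont (pow_cont 1) (pow_bd 1) s h
      have h3 : Continuous fun v : ℝ => Real.exp (-v / 2) := by fun_prop
      exact h3.mul h2
    exact h1.continuousOn
  · have h1 : Continuous (V 3 s h) := by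
      have h2 := U_cont (pow_cont 3) (pow_bd 3) s h
      have h3 : Continuous fun v : ℝ => Real.exp (-v / 2) := by fun_prop
      exact h3.mul h2
    exact h1.continuousOn

end Pool.TH521.AT
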