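import Pool.Agent.TH198.AT.Stmts

set_option autoImplicit false

open MeasureTheory ProbabilityTheory Set

namespace Pool.TH521.AT

open Pool.TH198.AT

theorem pdf_le {y c : ℝ} (h : y ^ 2 ≤ c ^ 2) :
    gaussianPDFReal 0 1 c ≤ gaussianPDFReal 0 1 y := by
  unfold gaussianPDFReal
  apply mul_le_mul_of_nonneg_left
  · apply Real.exp_le_exp.mpr
    simp only [sub_zero, NNReal.coe_one, mul_one]
    linarith
  · positivity

theorem odd_nonneg {g : ℝ → ℝ} {C : ℝ} (hg : Continuous g) (hC : ∀ x, |g x| ≤ C)
    (hodd : ∀ x, g (-x) = -g x) (hpos : ∀ x, 0 ≤ x → 0 ≤ g x) {σ x : ℝ} (hσ : 0 < σ)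
    (hx : 0 ≤ x) : 0 ≤ E1 (fun y => g (x + σ * y)) := by
  unfold E1
  rw [integral_gaussianReal_eq_integral_smul (one_ne_zero)]
  simp only [smul_eq_mul]
  have hneg : ∀ u, u ≤ 0 → g u ≤ 0 := by
    intro u hu
    have := hpos (-u) (by linarith)
    rw [hodd] at this
    linarith
  -- integrability
  have hint1 : Integrable (fun y : ℝ => gaussianPDFReal 0 1 y * g (x + σ * y)) := by
    apply (integrable_gaussianPDFReal 0 1).mul_bdd (c := C)
    · exact (hg.comp (by fun_prop)).aestronglyMeasurable
    · exact Filter.Eventually.of_forall fun y => by simpa using hC _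
  have hint2 : Integrable (fun y : ℝ => gaussianPDFReal 0 1 (-y - 2 * x / σ) * g (x + σ * y)) := by
    have h0 : Integrable (fun y : ℝ => gaussianPDFReal 0 1 (-y - 2 * x / σ)) := by
      have h1 := ((integrable_gaussianPDFReal 0 1).comp_neg).comp_add_right (2 * x / σ)
      refine h1.congr (Filter.Eventually.of_forall fun y => ?_)
      simp only
      congr 1
      ring
    apply h0.mul_bdd (c := C)
    · exact (hg.comp (by fun_prop)).aestronglyMeasurable
    · exact Filter.Eventually.of_forall fun y => by simpa using hC _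
  have hI : ∫ y : ℝ, gaussianPDFReal 0 1 y * g (x + σ * y) =
      -∫ y : ℝ, gaussianPDFReal 0 1 (-y - 2 * x / σ) * g (x + σ * y) := by
    rw [← integral_neg]
    have e1 : (∫ y : ℝ, gaussianPDFReal 0 1 y * g (x + σ * y)) =
        ∫ y : ℝ, gaussianPDFReal 0 1 (-(y + 2 * x / σ)) * g (x + σ * (-(y + 2 * x / σ))) := by
      rw [integral_add_right_eq_self
        (fun y : ℝ => gaussianPDFReal 0 1 (-y) * g (x + σ * (-y))) (2 * x / σ)]
      rw [integral_neg_eq_self (fun y : ℝ => gaussianPDFReal 0 1 y * g (x + σ * y)) volume]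
    rw [e1]
    apply integral_congr_ae
    refine Filter.Eventually.of_forall fun y => ?_
    simp only
    have h1 : x + σ * (-(y + 2 * x / σ)) = -(x + σ * y) := by
      field_simp
      ring
    have h2 : -(y + 2 * x / σ) = -y - 2 * x / σ := by ring
    rw [h1, hodd, h2]
    ring
  have hsub : 0 ≤ ∫ y : ℝ, (gaussianPDFReal 0 1 y * g (x + σ * y) -
      gaussianPDFReal 0 1 (-y - 2 * x / σ) * g (x + σ * y)) := by
    apply integral_nonneg
    intro y
    simp only [Pi.zero_apply]
    rw [← sub_mul]
    have hkey : (-y - 2 * x / σ) ^ 2 - y ^ 2 = 4 * x / σ ^ 2 * (x + σ * y) := by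
      field_simp
      ring
    have hc : 0 ≤ 4 * x / σ ^ 2 := by positivity
    rcases le_total 0 (x + σ * y) with h | h
    · apply mul_nonneg _ (hpos _ h)
      have : y ^ 2 ≤ (-y - 2 * x / σ) ^ 2 := by
        have := mul_nonneg hc h
        linarith
      linarith [pdf_le this]
    · apply mul_nonneg_of_nonpos_of_nonpos _ (hneg _ h)
      have : (-y - 2 * x / σ) ^ 2 ≤ y ^ 2 := by
        have := mul_nonpos_of_nonneg_of_nonpos hc h
        linarith
      linarith [pdf_le this]
  rw [integral_sub hint1 hint2] at hsub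
  linarith

theorem sech_pos (x : ℝ) : 0 < sech x := by
  unfold sech
  exact inv_pos.mpr (Real.cosh_pos x)

theorem sech_le_one (x : ℝ) : sech x ≤ 1 := by
  unfold sech
  exact inv_le_one_of_one_le₀ (Real.one_le_cosh x)

theorem sech_cont : Continuous sech := by
  unfold sech
  exact Real.continuous_cosh.inv₀ fun x => (Real.cosh_pos x).ne'

theorem sech_neg (x : ℝ) : sech (-x) = sech x := by
  unfold sech
  rw [Real.cosh_neg]

theorem tanh_eq (x : ℝ) : Real.tanh x = Real.sinh x * sech x := by
  unfold sech
  rw [Real.tanh_eq_sinh_div_cosh, div_eq_mul_inv]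

theorem tanh_cont : Continuous Real.tanh := by
  have : Real.tanh = fun x => Real.sinh x * sech x := funext tanh_eq
  rw [this]
  exact Real.continuous_sinh.mul sech_cont

theorem tanh_nonneg' {x : ℝ} (hx : 0 ≤ x) : 0 ≤ Real.tanh x := by
  rw [tanh_eq]
  exact mul_nonneg (Real.sinh_nonneg_iff.mpr hx) (sech_pos x).le

theorem abs_tanh_le (x : ℝ) : |Real.tanh x| ≤ 1 := by
  rw [Real.tanh_eq_sinh_div_cosh, abs_div, abs_of_pos (Real.cosh_pos x),
    div_le_one (Real.cosh_pos x)]
  have h := Real.cosh_sq x
  apply abs_le_of_sq_le_sq _ (Real.cosh_pos x).le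
  linarith

theorem t_W : St_W := by
  intro v x hv hx
  rcases hv.eq_or_lt with h0 | hpos
  · subst h0
    simp only [Real.sqrt_zero, zero_mul, add_zero]
    unfold E1
    simp only [integral_const, probReal_univ, one_smul]
    have := mul_nonneg (pow_pos (sech_pos x) 3).le (tanh_nonneg' hx)
    nlinarith
  · have h1 := odd_nonneg (g := fun u => 3 * sech u ^ 3 * Real.tanh u) (C := 3)
      (by have := sech_cont; have := tanh_cont; fun_prop) (by
        intro u
        rw [abs_mul, abs_of_nonneg (by have := sech_pos u; positivity)]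
        have h2 : sech u ^ 3 ≤ 1 := pow_le_one₀ (sech_pos u).le (sech_le_one u)
        have h3 := abs_tanh_le u
        have h4 := abs_nonneg (Real.tanh u)
        have h5 := (pow_pos (sech_pos u) 3).le
        nlinarith) (by
        intro u
        simp only [sech_neg, Real.tanh_neg]
        ring) (by
        intro u hu
        have := tanh_nonneg' hu
        have := sech_pos u
        positivity) (Real.sqrt_pos.mpr hpos) hx
    unfold E1 at h1 ⊢
    rw [integral_neg]
    linarith

end Pool.TH521.AT
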